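import Pool.Agent.Helper93.L2.Phase

/-!
# LN2-R16a (MP_730da0_ag): the limit of the integral identities

`finsum_W`: sums over `W z` are sums over the branches; `cont_sum`: sums over the branches of continuous expressions are
continuous off `P`; `re_int_aux`: dominated convergence.
-/

namespace Pool.Agent.Helper72.L2

open MeasureTheory Pool.Agent.Helper93.L2

/-- Over a point `z ∉ P` the sums over `W z` are finite sums over the values of the branches. -/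
theorem finsum_W {P : Finset ℂ} {N : ℕ} {W : ℂ → Set ℂ} {a : ℂ → ℂ → ℂ} (hB : Branches P N W a)
    (z : ℂ) (hz : z ∉ P) : ∃ τ : Fin N → ℂ, (∀ j, τ j ∈ W z) ∧
      (∀ f : ℂ → ℂ, ∑ᶠ w ∈ W z, f w = ∑ j, f (τ j)) ∧
      (∀ f : ℂ → ℝ, ∑ᶠ w ∈ W z, f w = ∑ j, f (τ j)) := by
  obtain ⟨r, hr, -, σ, -, h2, -⟩ := hB z hz
  obtain ⟨hinj, hW⟩ := h2 z (Metric.mem_ball_self hr)
  refine ⟨fun j => σ j z, fun j => hW ▸ ⟨j, rfl⟩, fun f => ?_, fun f => ?_⟩
  · rw [hW, finsum_mem_range hinj, finsum_eq_sum_of_fintype]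
  · rw [hW, finsum_mem_range hinj, finsum_eq_sum_of_fintype]

/-- `phi p s` is continuous away from the `p j`. -/
theorem continuousAt_phi (p : Fin 4 → ℂ) (s w : ℂ) (hw : ∀ j, w ≠ p j) :
    ContinuousAt (phi p s) w := by
  unfold phi
  refine ContinuousAt.div (by fun_prop) (by fun_prop) ?_
  exact Finset.prod_ne_zero_iff.2 fun j _ => sub_ne_zero.2 (hw j)

/-- A sum over `W z` of a jointly continuous function of `z`, the branch and its derivative is
continuous off `P`. -/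
theorem continuousOn_sum {P : Finset ℂ} {N : ℕ} {W : ℂ → Set ℂ} {a : ℂ → ℂ → ℂ}
    (hB : Branches P N W a) (g : ℂ → ℂ → ℂ → ℂ)
    (hg : ∀ z ∉ P, ∀ w ∈ W z, ContinuousAt (fun x : ℂ × ℂ × ℂ => g x.1 x.2.1 x.2.2)
      (z, w, a z w)) :
    ContinuousOn (fun z => ∑ᶠ w ∈ W z, g z w (a z w)) ((P : Set ℂ)ᶜ) := by
  intro z₀ hz₀
  have hz₀' : z₀ ∉ P := by simpa using hz₀
  obtain ⟨r, hr, -, σ, h1, h2, h3⟩ := hB z₀ hz₀'
  apply ContinuousAt.continuousWithinAt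
  have hnhds : Metric.ball z₀ r ∈ nhds z₀ := Metric.ball_mem_nhds _ hr
  have hev : (fun z => ∑ j, g z (σ j z) (deriv (σ j) z)) =ᶠ[nhds z₀]
      fun z => ∑ᶠ w ∈ W z, g z w (a z w) := by
    filter_upwards [hnhds] with z hz
    obtain ⟨hinj, hW⟩ := h2 z hz
    rw [hW, finsum_mem_range hinj, finsum_eq_sum_of_fintype]
    exact Finset.sum_congr rfl fun j _ => by rw [h3 z hz j]
  refine ContinuousAt.congr ?_ hev
  have hself : z₀ ∈ Metric.ball z₀ r := Metric.mem_ball_self hr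
  refine tendsto_finsetSum _ fun j _ => ?_
  have hc1 : ContinuousAt (σ j) z₀ := ((h1 j).differentiableAt hnhds).continuousAt
  have hc2 : ContinuousAt (deriv (σ j)) z₀ :=
    ((((h1 j).deriv Metric.isOpen_ball)).differentiableAt hnhds).continuousAt
  have hmem : σ j z₀ ∈ W z₀ := by rw [(h2 z₀ hself).2]; exact ⟨j, rfl⟩
  have := hg z₀ hz₀' (σ j z₀) hmem
  rw [h3 z₀ hself j] at this
  exact ContinuousAt.comp (f := fun z => (z, σ j z, deriv (σ j) z)) this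
    (continuousAt_id.prodMk (hc1.prodMk hc2))

theorem ae_notMem (P : Finset ℂ) : ∀ᵐ z : ℂ, z ∉ P := by
  have : (volume : Measure ℂ) (P : Set ℂ) = 0 := P.countable_toSet.measure_zero _
  exact measure_eq_zero_iff_ae_notMem.1 this

theorem aesm_of_continuousOn (P : Finset ℂ) {f : ℂ → ℂ} (hf : ContinuousOn f ((P : Set ℂ)ᶜ)) :
    AEStronglyMeasurable f := by
  have h1 : AEStronglyMeasurable f (volume.restrict ((P : Set ℂ)ᶜ)) :=
    hf.aestronglyMeasurable (P.finite_toSet.measurableSet.compl)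
  have h2 : (volume : Measure ℂ).restrict ((P : Set ℂ)ᶜ) = volume :=
    Measure.restrict_eq_self_of_ae_mem (by simpa using ae_notMem P)
  rwa [h2] at h1

theorem re_int_aux (P : Finset ℂ) (N : ℕ) (W : ℂ → Set ℂ) (a : ℂ → ℂ → ℂ) (hB : Branches P N W a)
    (p : Fin 4 → ℂ) (hpP : ∀ j, p j ∈ P) (s : ℂ) (av : ∀ z ∉ P, ∀ w ∈ W z, ∀ j, w ≠ p j)
    (hint : Integrable fun z => ∑ᶠ w ∈ W z, ‖phi p s w‖ * ‖a z w‖ ^ 2)
    (hstar : ∀ μ : ℂ → ℂ, ContDiff ℝ 1 μ → HasCompactSupport μ →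
      ∫ z, integrand W a p s μ z = 0) :
    Integrable (fun z => ∑ᶠ w ∈ W z, (((‖phi p s w‖ * ‖a z w‖ ^ 2 : ℝ) : ℂ) -
      (starRingEnd ℂ) (phi p s z) / (‖phi p s z‖ : ℂ) * (phi p s w * a z w ^ 2))) ∧
    ∫ z, ∑ᶠ w ∈ W z, (((‖phi p s w‖ * ‖a z w‖ ^ 2 : ℝ) : ℂ) -
      (starRingEnd ℂ) (phi p s z) / (‖phi p s z‖ : ℂ) * (phi p s w * a z w ^ 2)) = 0 := by
  obtain ⟨μ, hμ1, hμ2, hμ3, hμ4⟩ := exists_phase p s
  set F : ℂ → ℂ := fun z => ∑ᶠ w ∈ W z, (((‖phi p s w‖ * ‖a z w‖ ^ 2 : ℝ) : ℂ) -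
      (starRingEnd ℂ) (phi p s z) / (‖phi p s z‖ : ℂ) * (phi p s w * a z w ^ 2)) with hF
  set G : ℂ → ℝ := fun z => ∑ᶠ w ∈ W z, ‖phi p s w‖ * ‖a z w‖ ^ 2 with hG
  -- measurability
  have hmeas : ∀ n, AEStronglyMeasurable (fun z => - integrand W a p s (μ n) z) := by
    intro n
    apply AEStronglyMeasurable.neg
    apply aesm_of_continuousOn P
    have hmc : Continuous (μ n) := (hμ1 n).continuous
    refine continuousOn_sum hB (fun z w d => μ n z * (phi p s w * d ^ 2) -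
      μ n w * (phi p s w * ((‖d‖ ^ 2 : ℝ) : ℂ))) fun z hz w hw => ?_
    have hfst : ContinuousAt (fun x : ℂ × ℂ × ℂ => x.2.1) (z, w, a z w) := by fun_prop
    have hphi : ContinuousAt (fun x : ℂ × ℂ × ℂ => phi p s x.2.1) (z, w, a z w) :=
      ContinuousAt.comp (x := (z, w, a z w)) (g := phi p s)
        (continuousAt_phi p s w (av z hz w hw)) hfst
    have h1 : ContinuousAt (fun x : ℂ × ℂ × ℂ => μ n x.1) (z, w, a z w) :=
      (hmc.comp continuous_fst).continuousAt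
    have h2 : ContinuousAt (fun x : ℂ × ℂ × ℂ => μ n x.2.1) (z, w, a z w) :=
      (hmc.comp (continuous_fst.comp continuous_snd)).continuousAt
    have h3 : ContinuousAt (fun x : ℂ × ℂ × ℂ => x.2.2 ^ 2) (z, w, a z w) := by fun_prop
    have h4 : ContinuousAt (fun x : ℂ × ℂ × ℂ => ((‖x.2.2‖ ^ 2 : ℝ) : ℂ)) (z, w, a z w) := by
      fun_prop
    exact (h1.mul (hphi.mul h3)).sub (h2.mul (hphi.mul h4))
  -- bound
  have hbound : ∀ n, ∀ᵐ z : ℂ, ‖- integrand W a p s (μ n) z‖ ≤ 2 * G z := by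
    intro n
    filter_upwards [ae_notMem P] with z hz
    obtain ⟨τ, -, hτ, hτ'⟩ := finsum_W hB z hz
    simp only [hG, norm_neg]
    unfold integrand
    rw [hτ, hτ', Finset.mul_sum]
    refine (norm_sum_le _ _).trans (Finset.sum_le_sum fun j _ => ?_)
    refine (norm_sub_le _ _).trans ?_
    have e1 : ‖μ n z * (phi p s (τ j) * a z (τ j) ^ 2)‖ ≤ ‖phi p s (τ j)‖ * ‖a z (τ j)‖ ^ 2 := by
      rw [norm_mul, norm_mul, norm_pow]
      exact mul_le_of_le_one_left (by positivity) (hμ3 n z)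
    have e2 : ‖μ n (τ j) * (phi p s (τ j) * ((‖a z (τ j)‖ ^ 2 : ℝ) : ℂ))‖ ≤
        ‖phi p s (τ j)‖ * ‖a z (τ j)‖ ^ 2 := by
      rw [norm_mul, norm_mul, Complex.norm_real, Real.norm_of_nonneg (by positivity)]
      exact mul_le_of_le_one_left (by positivity) (hμ3 n _)
    linarith
  -- limit
  have hlim : ∀ᵐ z : ℂ, Filter.Tendsto (fun n => - integrand W a p s (μ n) z) Filter.atTop
      (nhds (F z)) := by
    filter_upwards [ae_notMem P, ae_notMem {s}] with z hz hzs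
    have hzs' : z ≠ s := by simpa using hzs
    have hzp : ∀ j, z ≠ p j := fun j h => hz (h ▸ hpP j)
    obtain ⟨τ, hτm, hτ, -⟩ := finsum_W hB z hz
    have hFz : F z = -∑ j, ((starRingEnd ℂ) (phi p s z) / (‖phi p s z‖ : ℂ) *
        (phi p s (τ j) * a z (τ j) ^ 2) - ((‖phi p s (τ j)‖ * ‖a z (τ j)‖ ^ 2 : ℝ) : ℂ)) := by
      simp only [hF]
      rw [hτ, ← Finset.sum_neg_distrib]
      exact Finset.sum_congr rfl fun j _ => by ring
    rw [hFz]
    unfold integrand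
    simp only [hτ]
    refine (tendsto_finsetSum _ fun j _ => ?_).neg
    refine ((hμ4 z hzs' hzp).mul_const _).sub ?_
    by_cases hws : τ j = s
    · have h0 : phi p s (τ j) = 0 := by simp [phi, hws]
      rw [h0]
      simp
    · have ht := (hμ4 (τ j) hws (av z hz _ (hτm j))).mul_const
        (phi p s (τ j) * ((‖a z (τ j)‖ ^ 2 : ℝ) : ℂ))
      convert ht using 2
      have hne : phi p s (τ j) ≠ 0 := by
        unfold phi
        exact div_ne_zero (sub_ne_zero.2 hws)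
          (Finset.prod_ne_zero_iff.2 fun i _ => sub_ne_zero.2 (av z hz _ (hτm j) i))
      have hn : ((‖phi p s (τ j)‖ : ℝ) : ℂ) ≠ 0 := by
        exact_mod_cast norm_ne_zero_iff.2 hne
      have hc : (starRingEnd ℂ) (phi p s (τ j)) * phi p s (τ j) =
          ((‖phi p s (τ j)‖ : ℝ) : ℂ) * ((‖phi p s (τ j)‖ : ℝ) : ℂ) := by
        rw [mul_comm, Complex.mul_conj, Complex.normSq_eq_norm_sq]
        push_cast
        ring
      rw [← mul_assoc, div_mul_eq_mul_div, hc, mul_div_assoc, div_self hn, mul_one]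
      push_cast
      ring
  have hint2 : Integrable fun z => 2 * G z := hint.const_mul 2
  have hFm : AEStronglyMeasurable F := aestronglyMeasurable_of_tendsto_ae _ hmeas hlim
  have hFb : ∀ᵐ z : ℂ, ‖F z‖ ≤ 2 * G z := by
    filter_upwards [hlim, ae_all_iff.2 hbound] with z h1 h2
    exact le_of_tendsto h1.norm (Filter.Eventually.of_forall h2)
  refine ⟨hint2.mono' hFm hFb, ?_⟩
  have hT := tendsto_integral_of_dominated_convergence (fun z => 2 * G z) hmeas hint2 hbound hlim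
  have h0 : ∀ n, ∫ z, - integrand W a p s (μ n) z = 0 := by
    intro n
    rw [integral_neg, hstar (μ n) (hμ1 n) (hμ2 n), neg_zero]
  simp only [h0] at hT
  exact (tendsto_nhds_unique hT tendsto_const_nhds)

theorem re_int (P : Finset ℂ) (N : ℕ) (W : ℂ → Set ℂ) (a : ℂ → ℂ → ℂ) (hB : Branches P N W a)
    (p : Fin 4 → ℂ) (hpP : ∀ j, p j ∈ P) (s : ℂ) (av : ∀ z ∉ P, ∀ w ∈ W z, ∀ j, w ≠ p j)
    (hint : Integrable fun z => ∑ᶠ w ∈ W z, ‖phi p s w‖ * ‖a z w‖ ^ 2)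
    (hstar : ∀ μ : ℂ → ℂ, ContDiff ℝ 1 μ → HasCompactSupport μ →
      ∫ z, integrand W a p s μ z = 0) :
    Integrable (fun z => ∑ᶠ w ∈ W z, (‖phi p s w‖ * ‖a z w‖ ^ 2 -
      ((starRingEnd ℂ) (phi p s z) / (‖phi p s z‖ : ℂ) * (phi p s w * a z w ^ 2)).re)) ∧
    ∫ z, ∑ᶠ w ∈ W z, (‖phi p s w‖ * ‖a z w‖ ^ 2 -
      ((starRingEnd ℂ) (phi p s z) / (‖phi p s z‖ : ℂ) * (phi p s w * a z w ^ 2)).re) = 0 := by
  obtain ⟨h1, h2⟩ := re_int_aux P N W a hB p hpP s av hint hstar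
  set F : ℂ → ℂ := fun z => ∑ᶠ w ∈ W z, (((‖phi p s w‖ * ‖a z w‖ ^ 2 : ℝ) : ℂ) -
      (starRingEnd ℂ) (phi p s z) / (‖phi p s z‖ : ℂ) * (phi p s w * a z w ^ 2)) with hF
  have hre : (fun z => ∑ᶠ w ∈ W z, (‖phi p s w‖ * ‖a z w‖ ^ 2 -
      ((starRingEnd ℂ) (phi p s z) / (‖phi p s z‖ : ℂ) * (phi p s w * a z w ^ 2)).re)) =ᵐ[volume]
      fun z => (F z).re := by
    filter_upwards [ae_notMem P] with z hz
    obtain ⟨τ, -, hτ, hτ'⟩ := finsum_W hB z hz
    simp only [hF]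
    rw [hτ, hτ', Complex.re_sum]
    exact Finset.sum_congr rfl fun j _ => by rw [Complex.sub_re, Complex.ofReal_re]
  have hFre : Integrable fun z => (F z).re := h1.re
  refine ⟨hFre.congr hre.symm, ?_⟩
  rw [integral_congr_ae hre]
  have h3 : ∫ z, (F z).re = (∫ z, F z).re := integral_re h1
  rw [h3, h2, Complex.zero_re]

end Pool.Agent.Helper72.L2
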